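import Pool.Agent.Helper11.MM.Tail
import Pool.Agent.Helper22.AM.Defs

/-!
# AM-C2: the tail is small in the mean (deterministic)
-/

open MeasureTheory Real Set Filter Topology

set_option autoImplicit false

namespace Pool.Agent.Helper11.AM

open Pool.Agent.Helper22.AE
open Pool.Agent.Helper22.AC (cntc)
open Pool.Agent.Helper92.GC (dt sqa)
open Pool.Agent.Helper60.AD
open Pool.Agent.Helper22.AM
open Pool.Agent.Helper93.EX (Mx)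

/-- from dyadic intervals to all `X` -/
theorem int_of_dyadic (f : ℝ → ℝ × ℝ → ℝ) (hf : ∀ R c, 0 ≤ f R c) {J : ℕ} {η : ℝ} (hη : 0 < η) {N₂ : ℕ}
    (hV : ∀ N : ℕ, N₂ ≤ N → ∃ V : ℝ → ℝ, Measurable V ∧ IntegrableOn V (Icc ((2 : ℝ) ^ N) (2 * 2 ^ N)) ∧
      (∀ R ∈ Icc ((2 : ℝ) ^ N) (2 * 2 ^ N), ∀ c : ℝ × ℝ, f R c ≤ V R) ∧
      (∀ R, 0 ≤ V R) ∧ ∫ R in Icc ((2 : ℝ) ^ N) (2 * 2 ^ N), V R ≤ η / (1 + 2 ^ (J + 1)) * ((2 : ℝ) ^ N) ^ (J + 1)) :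
    ∀ X : ℝ, 2 ^ N₂ ≤ X → ∀ c : ℝ × ℝ, ∫ R in Icc X (2 * X), f R c ≤ η * X ^ (J + 1) := by
  intro X hX c
  have hX1 : 1 ≤ X := (one_le_pow₀ (by norm_num)).trans hX
  obtain ⟨N, hN1, hN2⟩ := exists_nat_pow_near hX1 (one_lt_two)
  have hNN : N₂ ≤ N := by
    by_contra hcon
    have h1 : N + 1 ≤ N₂ := by omega
    have h2 : (2 : ℝ) ^ (N + 1) ≤ 2 ^ N₂ := pow_le_pow_right₀ (by norm_num) h1
    linarith
  obtain ⟨V, v1, v2, v3, v4, v5⟩ := hV N hNN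
  obtain ⟨W, w1, w2, w3, w4, w5⟩ := hV (N + 1) (by omega)
  have iV : Integrable ((Icc ((2 : ℝ) ^ N) (2 * 2 ^ N)).indicator V) := (integrable_indicator_iff measurableSet_Icc).mpr v2
  have iW : Integrable ((Icc ((2 : ℝ) ^ (N + 1)) (2 * 2 ^ (N + 1))).indicator W) :=
    (integrable_indicator_iff measurableSet_Icc).mpr w2
  have h1 : ∫ R in Icc X (2 * X), f R c ≤ ∫ R in Icc X (2 * X), ((Icc ((2 : ℝ) ^ N) (2 * 2 ^ N)).indicator V R +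
      (Icc ((2 : ℝ) ^ (N + 1)) (2 * 2 ^ (N + 1))).indicator W R) := by
    refine integral_mono_of_nonneg (ae_of_all _ fun R => hf R c) (iV.add iW).integrableOn ?_
    refine (ae_restrict_mem measurableSet_Icc).mono fun R hR => ?_
    have g1 : 0 ≤ (Icc ((2 : ℝ) ^ N) (2 * 2 ^ N)).indicator V R := indicator_nonneg (fun R _ => v4 R) R
    have g2 : 0 ≤ (Icc ((2 : ℝ) ^ (N + 1)) (2 * 2 ^ (N + 1))).indicator W R := indicator_nonneg (fun R _ => w4 R) R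
    rcases le_total R (2 * 2 ^ N) with h | h
    · have hm : R ∈ Icc ((2 : ℝ) ^ N) (2 * 2 ^ N) := ⟨hN1.trans hR.1, h⟩
      have g3 := v3 R hm c
      have g4 : (Icc ((2 : ℝ) ^ N) (2 * 2 ^ N)).indicator V R = V R := indicator_of_mem hm V
      show f R c ≤ (Icc ((2 : ℝ) ^ N) (2 * 2 ^ N)).indicator V R + (Icc ((2 : ℝ) ^ (N + 1)) (2 * 2 ^ (N + 1))).indicator W R
      linarith
    · have hm : R ∈ Icc ((2 : ℝ) ^ (N + 1)) (2 * 2 ^ (N + 1)) := by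
        have hR2 := hR.2
        rw [pow_succ] at hN2 ⊢
        exact ⟨by linarith, by linarith⟩
      have g3 := w3 R hm c
      have g4 : (Icc ((2 : ℝ) ^ (N + 1)) (2 * 2 ^ (N + 1))).indicator W R = W R := indicator_of_mem hm W
      show f R c ≤ (Icc ((2 : ℝ) ^ N) (2 * 2 ^ N)).indicator V R + (Icc ((2 : ℝ) ^ (N + 1)) (2 * 2 ^ (N + 1))).indicator W R
      linarith
  have h2 : ∫ R in Icc X (2 * X), ((Icc ((2 : ℝ) ^ N) (2 * 2 ^ N)).indicator V R +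
      (Icc ((2 : ℝ) ^ (N + 1)) (2 * 2 ^ (N + 1))).indicator W R) ≤
      ∫ R, ((Icc ((2 : ℝ) ^ N) (2 * 2 ^ N)).indicator V R + (Icc ((2 : ℝ) ^ (N + 1)) (2 * 2 ^ (N + 1))).indicator W R) := by
    refine setIntegral_le_integral (iV.add iW) (ae_of_all _ fun R => ?_)
    exact add_nonneg (indicator_nonneg (fun R _ => v4 R) R) (indicator_nonneg (fun R _ => w4 R) R)
  rw [integral_add iV iW, integral_indicator measurableSet_Icc, integral_indicator measurableSet_Icc] at h2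
  have hF : (0 : ℝ) < 1 + 2 ^ (J + 1) := by positivity
  have g0 : 0 ≤ η / (1 + 2 ^ (J + 1)) := by positivity
  have k1 : ((2 : ℝ) ^ N) ^ (J + 1) ≤ X ^ (J + 1) := pow_le_pow_left₀ (by positivity) hN1 _
  have k2 : ((2 : ℝ) ^ (N + 1)) ^ (J + 1) ≤ 2 ^ (J + 1) * X ^ (J + 1) := by
    rw [← mul_pow]
    exact pow_le_pow_left₀ (by positivity) (by rw [pow_succ]; linarith) _
  calc ∫ R in Icc X (2 * X), f R c ≤ η / (1 + 2 ^ (J + 1)) * ((2 : ℝ) ^ N) ^ (J + 1) +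
        η / (1 + 2 ^ (J + 1)) * ((2 : ℝ) ^ (N + 1)) ^ (J + 1) := h1.trans (h2.trans (add_le_add v5 w5))
    _ ≤ η / (1 + 2 ^ (J + 1)) * X ^ (J + 1) + η / (1 + 2 ^ (J + 1)) * (2 ^ (J + 1) * X ^ (J + 1)) :=
        add_le_add (mul_le_mul_of_nonneg_left k1 g0) (mul_le_mul_of_nonneg_left k2 g0)
    _ = η * X ^ (J + 1) := by
        field_simp

/-- C2: the tail is small in the mean (deterministic), from C1 (`hlow` is the statement of `dil_low`) -/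
theorem sum_tail_of
    (hlow : ∀ {H : ℝ → ℝ}, IsSupp H → ∀ {τ e2 : ℝ}, 1 / 2 < τ → τ < 1 → 0 < e2 →
      ∃ m : ℝ, 0 < m ∧ ∀ (n0 : ℕ) (ε : ℝ), 0 < ε → ∃ R₁ : ℝ, 1 ≤ R₁ ∧ ∀ R₀ : ℝ, R₁ ≤ R₀ → m * R₀ ^ (-τ) ≤ R₀ / 2 ∧
        ∀ n1 : ℕ, n0 ≤ n1 → R₀ ^ (τ + e2) ≤ 2 ^ n1 →
        ∀ B : ℕ → ℝ → ℝ, (∀ n, n0 ≤ n → n < n1 → ∀ r ∈ Icc (R₀ / 2) (4 * R₀), 0 ≤ B n r ∧
          ∀ c' : ℝ × ℝ, ‖∑ k ∈ sqa (2 ^ n), ft (fun θ => r * H θ) k * ee (dt k c')‖ ≤ B n r) →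
        ∀ R ∈ Icc R₀ (2 * R₀), ∀ c : ℝ × ℝ,
          |cntc H c R - area H * R ^ 2 - sqrt R * Mx H (2 ^ n0) R c| ≤ ε * sqrt R₀ +
            ∑ n ∈ Finset.Ico n0 n1, (B n (R + m * R₀ ^ (-τ)) + B n (R - m * R₀ ^ (-τ))))
    {L : ℕ} {H₀ : ℝ → ℝ} (h0 : ContDiff ℝ 2 H₀) (hp : Function.Periodic H₀ (2 * π)) {e2 : ℝ} (he2 : 0 < e2) (he2' : e2 ≤ 1 / 4)
    {J : ℕ} (hJ : 1 ≤ J) {nT : ℕ} {C : ℝ} (hC : 0 ≤ C)
    (b : ℕ → Fin nT → ℝ → ℤ × ℤ → ℂ) (hb1 : ∀ n i α k, ‖b n i α k‖ ≤ 1) (hbc : ∀ n i k, Continuous (fun α => b n i α k))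
    (w : (Fin L → ℝ) × (Fin L → ℝ)) (hrho : ∀ θ, 0 < Hw H₀ w θ + deriv (deriv (Hw H₀ w)) θ)
    (hty : ∀ (n : ℕ) (p : ℝ × ℝ) (R₀ R : ℝ), 1 ≤ R₀ →
        R ∈ Icc (R₀ / 2) (4 * R₀) → IsSupp (fun θ => R * (Hw H₀ w θ - (p.1 * cos θ + p.2 * sin θ))) → ∀ c : ℝ × ℝ, ∃ c' : ℝ × ℝ,
          ‖∑ k ∈ sqa (2 ^ n), ft (fun θ => R * (Hw H₀ w θ - (p.1 * cos θ + p.2 * sin θ))) k * ee (dt k c)‖ ≤
            C * R₀ ^ (1 / 2 : ℝ) * ((2 : ℝ) ^ n) ^ (-(3 / 2) : ℝ) * (∑ i, ∑ r ∈ Finset.range 2,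
              Um (Hw H₀ w) (n + r) (b n i) ((R₀ * 2 ^ n) ^ (-(1 / 2) : ℝ)) R c') + C)
    {A : ℝ} {N₁ : ℕ} (hA : 0 ≤ A) (hmaj : ∀ N : ℕ, N₁ ≤ N → ∀ n : ℕ, ∀ i, ∀ r < 2,
      (2 : ℝ) ^ (n + r) ≤ ((2 : ℝ) ^ N) ^ (1 / 2 + e2) →
      Maj (Hw H₀ w) (n + r) (b n i) (((2 : ℝ) ^ N * 2 ^ n) ^ (-(1 / 2) : ℝ)) (2 ^ N) (2 * J)
        (A * 2 ^ N * ((2 : ℝ) ^ (n + r)) ^ (3 * J - 1 / 20 : ℝ))) :
    ∀ η : ℝ, 0 < η → ∃ (n0 : ℕ) (X₀ : ℝ), 1 ≤ X₀ ∧ ∀ X : ℝ, X₀ ≤ X → ∀ c : ℝ × ℝ,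
      ∫ R in Icc X (2 * X), |cntc (Hw H₀ w) c R - area (Hw H₀ w) * R ^ 2 - sqrt R * Mx (Hw H₀ w) (2 ^ n0) R c| ^ (2 * J) ≤ η * X ^ (J + 1) := by
  intro η hη
  have hη' : 0 < η / (1 + 2 ^ (J + 1)) := by positivity
  obtain ⟨n0, N₂, h⟩ := Pool.Agent.Helper11.MM.core_tail h0 hp hJ he2 he2' (u := 1 / 20) (by norm_num) (by norm_num) hA hC hlow b w
    hrho hty (N₁ := N₁) (by
      intro N hN n i r hr hnr
      obtain ⟨G, g1, g2, g3, g4⟩ := hmaj N hN n i r hr hnr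
      refine ⟨fun R => G R ^ (2 * J), g1.pow_const _, ?_, fun R => pow_nonneg (g2 R).1 _, fun R hR c => ?_, g4⟩
      · refine Measure.integrableOn_of_bounded (M := (500 * 4 ^ (n + r)) ^ (2 * J)) ?_ (g1.pow_const _).aestronglyMeasurable
          (ae_of_all _ fun R => ?_)
        · exact (isCompact_Icc.measure_lt_top).ne
        · rw [Real.norm_eq_abs, abs_of_nonneg (pow_nonneg (g2 R).1 _)]
          exact pow_le_pow_left₀ (g2 R).1 (g2 R).2 _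
      · have hy0 : 0 ≤ Um (Hw H₀ w) (n + r) (b n i) (((2 : ℝ) ^ N * 2 ^ n) ^ (-(1 / 2) : ℝ)) R c := by
          unfold Um
          refine integral_nonneg fun α => mul_nonneg ?_ (norm_nonneg _)
          unfold k0
          positivity
        exact pow_le_pow_left₀ hy0 (g3 R hR c) _) hη'
  refine ⟨n0, 2 ^ N₂, one_le_pow₀ (by norm_num), fun X hX c => ?_⟩
  exact int_of_dyadic (fun R c => |cntc (Hw H₀ w) c R - area (Hw H₀ w) * R ^ 2 - sqrt R * Mx (Hw H₀ w) (2 ^ n0) R c| ^ (2 * J))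
    (fun R c => by positivity) hη h X hX c

end Pool.Agent.Helper11.AM
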