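import Pool.Agent.Helper92.MM.Defs
import Pool.Agent.Helper11.AM.SumTail

/-!
# AM-C2 with the hypotheses of `mom_blocks`
-/

open MeasureTheory Real Set Filter Topology

set_option autoImplicit false

namespace Pool.Agent.Helper11.AM

open Pool.Agent.Helper22.AE
open Pool.Agent.Helper22.AC (cntc)
open Pool.Agent.Helper92.GC (dt sqa)
open Pool.Agent.Helper60.AD
open Pool.Agent.Helper92.MM (gd1)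
open Pool.Agent.Helper93.EX (Mx)

/-- C2: hypotheses exactly those of `mom_blocks`, besides C1 (`hlow` is the statement of `dil_low`) -/
theorem sum_tail2_of
    (hlow : ∀ {H : ℝ → ℝ}, IsSupp H → ∀ {τ e2 : ℝ}, 1 / 2 < τ → τ < 1 → 0 < e2 →
      ∃ m : ℝ, 0 < m ∧ ∀ (n0 : ℕ) (ε : ℝ), 0 < ε → ∃ R₁ : ℝ, 1 ≤ R₁ ∧ ∀ R₀ : ℝ, R₁ ≤ R₀ → m * R₀ ^ (-τ) ≤ R₀ / 2 ∧
        ∀ n1 : ℕ, n0 ≤ n1 → R₀ ^ (τ + e2) ≤ 2 ^ n1 →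
        ∀ B : ℕ → ℝ → ℝ, (∀ n, n0 ≤ n → n < n1 → ∀ r ∈ Icc (R₀ / 2) (4 * R₀), 0 ≤ B n r ∧
          ∀ c' : ℝ × ℝ, ‖∑ k ∈ sqa (2 ^ n), ft (fun θ => r * H θ) k * ee (dt k c')‖ ≤ B n r) →
        ∀ R ∈ Icc R₀ (2 * R₀), ∀ c : ℝ × ℝ,
          |cntc H c R - area H * R ^ 2 - sqrt R * Mx H (2 ^ n0) R c| ≤ ε * sqrt R₀ +
            ∑ n ∈ Finset.Ico n0 n1, (B n (R + m * R₀ ^ (-τ)) + B n (R - m * R₀ ^ (-τ))))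
    {L : ℕ} {H₀ : ℝ → ℝ} (h0 : ContDiff ℝ 2 H₀) (hp : Function.Periodic H₀ (2 * π)) {J : ℕ} (hJ : 1 ≤ J) {e2 u A : ℝ}
    (he2 : 0 < e2) (he2' : e2 ≤ 1 / 4) (hu : 0 < u) (hu1 : u ≤ 1) (hA : 0 ≤ A) {nT : ℕ} {C : ℝ} (hC : 0 ≤ C)
    (b : ℕ → Fin nT → ℝ → ℤ × ℤ → ℂ) (hb : ∀ n i α k, ‖b n i α k‖ ≤ 1) (hbc : ∀ n i k, Continuous (fun α => b n i α k))
    (w : (Fin L → ℝ) × (Fin L → ℝ)) (hw : ∀ θ, 0 < Hw H₀ w θ + deriv (deriv (Hw H₀ w)) θ)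
    (hty : ∀ (n : ℕ) (p : ℝ × ℝ) (R₀ R : ℝ), 1 ≤ R₀ →
        R ∈ Icc (R₀ / 2) (4 * R₀) → IsSupp (fun θ => R * (Hw H₀ w θ - (p.1 * cos θ + p.2 * sin θ))) → ∀ c : ℝ × ℝ, ∃ c' : ℝ × ℝ,
          ‖∑ k ∈ sqa (2 ^ n), ft (fun θ => R * (Hw H₀ w θ - (p.1 * cos θ + p.2 * sin θ))) k * ee (dt k c)‖ ≤
            C * R₀ ^ (1 / 2 : ℝ) * ((2 : ℝ) ^ n) ^ (-(3 / 2) : ℝ) * (∑ i, ∑ r ∈ Finset.range 2,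
              ∫ α in Icc (-π) π ∩ {α | 1 / 2 ≤ |cos α|}, k0 ((R₀ * 2 ^ n) ^ (-(1 / 2) : ℝ)) α *
                ‖Sc (Hw H₀ w) (blk (n + r)) (b n i α) R α c'‖) + C)
    {N₁ : ℕ} (hW : ∀ N : ℕ, N₁ ≤ N → ∀ n : ℕ, ∀ i, ∀ r < 2, (2 : ℝ) ^ (n + r) ≤ ((2 : ℝ) ^ N) ^ (1 / 2 + e2) →
      ∃ W : ℝ → ℝ, Continuous W ∧ (∀ R, 0 ≤ W R) ∧ (∀ R ∈ Icc ((2 : ℝ) ^ N / 2) (4 * 2 ^ N), ∀ c : ℝ × ℝ,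
        (∫ α in gd1, k0 (((2 : ℝ) ^ N * 2 ^ n) ^ (-(1 / 2) : ℝ)) α * ‖Sc (Hw H₀ w) (blk (n + r)) (b n i α) R α c‖) ^ (2 * J) ≤ W R) ∧
        ∫ R in Icc ((2 : ℝ) ^ N / 2) (4 * 2 ^ N), W R ≤ A * 2 ^ N * ((2 : ℝ) ^ (n + r)) ^ (3 * J - u : ℝ)) :
    ∀ η : ℝ, 0 < η → ∃ (n0 : ℕ) (X₀ : ℝ), 1 ≤ X₀ ∧ ∀ X : ℝ, X₀ ≤ X → ∀ c : ℝ × ℝ,
      ∫ R in Icc X (2 * X), |cntc (Hw H₀ w) c R - area (Hw H₀ w) * R ^ 2 - sqrt R * Pool.Agent.Helper93.EX.Mx (Hw H₀ w) (2 ^ n0) R c| ^ (2 * J) ≤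
        η * X ^ (J + 1) := by
  intro η hη
  have hη' : 0 < η / (1 + 2 ^ (J + 1)) := by positivity
  obtain ⟨n0, N₂, h⟩ := Pool.Agent.Helper11.MM.core_tail h0 hp hJ he2 he2' hu hu1 hA hC hlow b w
    hw hty (N₁ := N₁) (by
      intro N hN n i r hr hnr
      obtain ⟨W, h1, h2, h3, h4⟩ := hW N hN n i r hr hnr
      exact ⟨W, h1.measurable, h1.continuousOn.integrableOn_compact isCompact_Icc, h2, h3, h4⟩) hη'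
  refine ⟨n0, 2 ^ N₂, one_le_pow₀ (by norm_num), fun X hX c => ?_⟩
  exact int_of_dyadic (fun R c => |cntc (Hw H₀ w) c R - area (Hw H₀ w) * R ^ 2 - sqrt R * Mx (Hw H₀ w) (2 ^ n0) R c| ^ (2 * J))
    (fun R c => by positivity) hη h X hX c

end Pool.Agent.Helper11.AM
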